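import Pool.Agent.helper75.AU.SpecR2

/-!
Module BBU of project au (MP_97532f_ag).
-/

namespace Pool.Agent.helper75.AU

open scoped Classical
open Pool.Agent.helper53.AU MulAction

theorem BBU : BBU_stmt := by
  intro hBU W Om _ _ _ _ _ A hp hcard _
  have : Fact (Nat.card Om).Prime := ⟨hp⟩
  have hcyc : IsCyclic A := isCyclic_of_prime_card hcard
  obtain ⟨c, hc⟩ := hcyc.exists_generator
  have hord : orderOf (c : W) = Nat.card Om := by
    rw [← hcard, Subgroup.orderOf_coe]
    exact orderOf_eq_card_of_forall_mem_zpowers hc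
  have hA : A = Subgroup.zpowers (c : W) := by
    ext a
    constructor
    · intro ha
      obtain ⟨n, hn⟩ := Subgroup.mem_zpowers_iff.1 (hc ⟨a, ha⟩)
      refine Subgroup.mem_zpowers_iff.2 ⟨n, ?_⟩
      have := congrArg (fun x : A => (x : W)) hn
      simpa using this
    · intro ha
      obtain ⟨n, rfl⟩ := Subgroup.mem_zpowers_iff.1 ha
      exact A.zpow_mem c.2 n
  rcases hBU W Om (c : W) hp hord with h | h
  · exact Or.inl h
  · right
    refine ⟨fun a ha g => ?_⟩
    rw [hA] at ha ⊢
    obtain ⟨n, rfl⟩ := Subgroup.mem_zpowers_iff.1 ha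
    rw [← conj_zpow]
    exact (Subgroup.zpowers (c : W)).zpow_mem (h g) n

end Pool.Agent.helper75.AU
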