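import Pool.Agent.helper75.AU.SpecR

/-!
Module LM of project au (MP_97532f_ag).
-/

namespace Pool.Agent.helper75.AU

open scoped Classical
open Pool.Agent.helper53.AU MulAction

/-- the group theoretic part: a normal subgroup of prime order -/
theorem LM_group (G : Type) [Group G] [Finite G] (l : ℕ) (Lam : Subgroup G) (hl : l.Prime)
    (hN : Lam.Normal) (hc : Nat.card Lam = l) :
    (Subgroup.centralizer (Lam : Set G)).Normal ∧
    (Subgroup.centralizer (Lam : Set G)).index ∣ l - 1 ∧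
    Lam ≤ Subgroup.centralizer (Lam : Set G) ∧
    (Subgroup.centralizer (Lam : Set G)).index * l ∣ Nat.card G ∧
    (∀ a b : G, a * b * a⁻¹ * b⁻¹ ∈ Subgroup.centralizer (Lam : Set G)) := by
  have hcyc : IsCyclic Lam := by
    have : Fact l.Prime := ⟨hl⟩
    exact isCyclic_of_prime_card hc
  let f : G →* MulAut Lam := MulAut.conjNormal
  have hker : f.ker = Subgroup.centralizer (Lam : Set G) := by
    ext g
    rw [MonoidHom.mem_ker, Subgroup.mem_centralizer_iff]
    constructor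
    · intro h x hx
      have h1 := congrArg (fun e : MulAut Lam => ((e ⟨x, hx⟩ : Lam) : G)) h
      simp only [f, MulAut.conjNormal_apply, MulAut.one_apply] at h1
      rw [mul_inv_eq_iff_eq_mul] at h1
      exact h1.symm
    · intro h
      refine MulEquiv.ext fun x => Subtype.ext ?_
      simp only [f, MulAut.conjNormal_apply, MulAut.one_apply]
      rw [mul_inv_eq_iff_eq_mul]
      exact (h x x.2).symm
  have hle : Lam ≤ Subgroup.centralizer (Lam : Set G) := by
    intro x hx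
    rw [Subgroup.mem_centralizer_iff]
    intro y hy
    have h1 : (⟨y, hy⟩ * ⟨x, hx⟩ : Lam) = ⟨x, hx⟩ * ⟨y, hy⟩ := by
      let _ : CommGroup Lam := IsCyclic.commGroup
      exact mul_comm _ _
    exact congrArg (fun x : Lam => (x : G)) h1
  have hcA : Nat.card (MulAut Lam) = l - 1 := by
    rw [IsCyclic.card_mulAut, hc, Nat.totient_prime hl]
  refine ⟨inferInstance, ?_, hle, ?_, ?_⟩
  · rw [← hker, Subgroup.index_ker, ← hcA]
    exact Subgroup.card_subgroup_dvd_card _
  · rw [← Subgroup.card_mul_index (Subgroup.centralizer (Lam : Set G)), mul_comm]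
    refine Nat.mul_dvd_mul_right ?_ _
    rw [← hc]
    exact Subgroup.card_dvd_of_le hle
  · intro a b
    rw [← hker, MonoidHom.mem_ker]
    let _ : CommGroup (MulAut Lam) := (hcyc.mulAutMulEquiv _).toMonoidHom.commGroupOfInjective
      (hcyc.mulAutMulEquiv _).injective
    have hco : f a * f b = f b * f a := by
      have e := (hcyc.mulAutMulEquiv Lam).injective
      apply e
      rw [map_mul, map_mul, mul_comm]
    rw [map_mul, map_mul, map_mul, map_inv, map_inv, hco]
    group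

theorem LM (hF3c : F3c_stmt) : LM_stmt := by
  intro k G X _ _ _ _ _ _ l R Lam hS hN hc
  have hl := hS.prime
  have hl0 := hS.large
  obtain ⟨h1, h2, hle, h3, h4⟩ := LM_group G l Lam hl hN hc
  refine ⟨?_, h1, h2, h3, h4⟩
  obtain ⟨-, hst, hl2⟩ := hF3c k G X l R hl (by omega)
  set M := Subgroup.centralizer (Lam : Set G) with hM
  -- the complement
  have hcM : l * (Lam.subgroupOf M).index = Nat.card M := by
    rw [← Subgroup.card_mul_index (Lam.subgroupOf M)]
    congr 1
    rw [← hc]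
    exact (Nat.card_congr (Subgroup.subgroupOfEquivOfLe hle).toEquiv).symm
  have hcop : Nat.Coprime l (Lam.subgroupOf M).index := by
    rw [Nat.Prime.coprime_iff_not_dvd hl]
    rintro ⟨m, hm⟩
    apply hl2
    refine Dvd.dvd.trans ?_ (Subgroup.card_subgroup_dvd_card M)
    rw [← hcM, hm]
    exact ⟨m, by ring⟩
  have hcLM : Nat.card (Lam.subgroupOf M) = l := by
    rw [← hc]
    exact Nat.card_congr (Subgroup.subgroupOfEquivOfLe hle).toEquiv
  obtain ⟨K, hK⟩ := Subgroup.exists_right_complement'_of_coprime (N := Lam.subgroupOf M)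
    (by rw [hcLM]; exact hcop)
  have hKcard : Nat.card K * l = Nat.card M := by
    rw [← hK.card_mul_card, hcLM, mul_comm]
  have hcen : ∀ a ∈ Lam.subgroupOf M, ∀ b : M, a * b = b * a := by
    intro a ha b
    rw [Subgroup.mem_subgroupOf] at ha
    exact Subtype.ext (Subgroup.mem_centralizer_iff.1 b.2 a ha)
  have hmem : ∀ s : M, ∀ m : ℕ, Nat.Coprime m l → s ^ m = 1 → s ∈ K := by
    intro s m hm hs
    obtain ⟨⟨a, b⟩, hab⟩ := hK.2 s
    simp only at hab
    have hco : Commute (a : M) (b : M) := hcen a a.2 b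
    have e1 : (a : M) ^ m * (b : M) ^ m = 1 := by
      rw [← hco.mul_pow, hab, hs]
    have e2 : (a : M) ^ m = ((b : M) ^ m)⁻¹ := eq_inv_of_mul_eq_one_left e1
    have e3 : (a : M) ^ m ∈ (Lam.subgroupOf M) ⊓ K := by
      refine ⟨(Lam.subgroupOf M).pow_mem a.2 m, ?_⟩
      rw [e2]
      exact K.inv_mem (K.pow_mem b.2 m)
    rw [hK.disjoint.eq_bot, Subgroup.mem_bot] at e3
    have e4 : (a : M) ^ l = 1 := by
      have : (a : Lam.subgroupOf M) ^ l = 1 := by
        rw [← hcLM]; exact pow_card_eq_one'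
      exact congrArg (fun x : Lam.subgroupOf M => (x : M)) this
    have e5 : (a : M) = 1 := by
      have h5 : orderOf (a : M) ∣ m := orderOf_dvd_of_pow_eq_one e3
      have h6 : orderOf (a : M) ∣ l := orderOf_dvd_of_pow_eq_one e4
      exact orderOf_eq_one_iff.1 (Nat.eq_one_of_dvd_coprimes hm h5 h6)
    rw [← hab, e5, one_mul]
    exact b.2
  set M' : Subgroup G := K.map M.subtype with hM'
  have hM'card : Nat.card M' = Nat.card K :=
    (Nat.card_congr (K.equivMapOfInjective M.subtype Subtype.val_injective).toEquiv).symm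
  have hM'le : M' ≤ M := by
    rintro g ⟨x, hx, rfl⟩
    exact x.2
  have hiff : ∀ (x : X) (s : G), (s ∈ M ∧ s ≠ 1 ∧ s • x = x) ↔ (s ∈ M' ∧ s ≠ 1 ∧ s • x = x) := by
    intro x s
    constructor
    · rintro ⟨e1, e2, e3⟩
      refine ⟨?_, e2, e3⟩
      refine ⟨⟨s, e1⟩, hmem ⟨s, e1⟩ (Nat.card (stabilizer G x)) ?_ ?_, rfl⟩
      · exact ((Nat.Prime.coprime_iff_not_dvd hl).2 (hst x)).symm
      · have h5 : (⟨s, e3⟩ : stabilizer G x) ^ (Nat.card (stabilizer G x)) = 1 := pow_card_eq_one'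
        exact Subtype.ext (congrArg (fun x : stabilizer G x => (x : G)) h5)
    · rintro ⟨e1, e2, e3⟩
      exact ⟨hM'le e1, e2, e3⟩
  obtain ⟨γ, hγ⟩ := R.RH M
  obtain ⟨γ', hγ'⟩ := R.RH M'
  have hsum : ∑ x : X, ∑ s ∈ Finset.univ.filter (fun s : G => s ∈ M' ∧ s ≠ 1 ∧ s • x = x),
      ((R.i x s : ℤ) + 1) =
      ∑ x : X, ∑ s ∈ Finset.univ.filter (fun s : G => s ∈ M ∧ s ≠ 1 ∧ s • x = x),
      ((R.i x s : ℤ) + 1) := by
    refine Finset.sum_congr rfl fun x _ => ?_
    congr 1
    ext s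
    simp only [Finset.mem_filter, Finset.mem_univ, true_and]
    exact (hiff x s).symm
  have hd : ((∑ x : X, R.d M x : ℕ) : ℤ) =
      ∑ x : X, ∑ s ∈ Finset.univ.filter (fun s : G => s ∈ M ∧ s ≠ 1 ∧ s • x = x),
      ((R.i x s : ℤ) + 1) := by
    simp only [Ram.d]
    push_cast
    rfl
  rw [hsum, ← hd] at hγ'
  rw [← hd] at hγ
  have hKpos : 0 < Nat.card K := Nat.card_pos
  have hMK : (Nat.card M : ℤ) = Nat.card K * l := by exact_mod_cast hKcard.symm
  rw [hMK] at hγ
  rw [hM'card] at hγ'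
  have hKpos' : (0 : ℤ) < Nat.card K := by exact_mod_cast hKpos
  have hl' : (1000 : ℤ) < l := by exact_mod_cast hl0
  have key : (l : ℤ) * (2 * (γ : ℤ) - 2) = 2 * (γ' : ℤ) - 2 := by
    have : (Nat.card K : ℤ) * ((l : ℤ) * (2 * (γ : ℤ) - 2)) = Nat.card K * (2 * (γ' : ℤ) - 2) := by
      linarith
    exact mul_left_cancel₀ hKpos'.ne' this
  have hγ1 : (1 : ℤ) ≤ γ := by
    by_contra hcon
    have h0 : (γ : ℤ) = 0 := by
      have : (0 : ℤ) ≤ γ := Int.natCast_nonneg _
      omega
    rw [h0] at key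
    have : (0 : ℤ) ≤ γ' := Int.natCast_nonneg _
    linarith
  have hfin : ((∑ x : X, R.d M x : ℕ) : ℤ) ≤ 2 * (l : ℤ) := by
    have h5 : (0 : ℤ) ≤ (Nat.card K : ℤ) * l * (2 * (γ : ℤ) - 2) := by
      have : (0 : ℤ) ≤ 2 * (γ : ℤ) - 2 := by linarith
      positivity
    push_cast at hγ ⊢
    linarith
  exact_mod_cast hfin

end Pool.Agent.helper75.AU
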