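import Pool.Agent.helper53.AU.SpecG2

/-!
Module P5 of project au (MP_97532f_ag).
-/

namespace Pool.Agent.helper53.AU

open scoped Classical

theorem P5 (hAB : AB_stmt) (hNH : NH_stmt) (hDC : DC_stmt) (hLO : LO_stmt) (hP4 : P4_stmt) :
    P5_stmt := by
  intro L Ω _ _ A hPL τ hτA hτ
  have := hPL.finL
  have := hPL.finΩ
  have := hPL.faithful
  have := hPL.cyc
  obtain ⟨hmo, hmt, hcard, hoddK, ⟨n, hn⟩, hcycK, hcycC, -, -, -⟩ := hAB L A hPL.cyc
  obtain ⟨t, ht1, ht2, ht3⟩ := hPL.dih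
  obtain ⟨ν, hν, hν1, hν2, -, -⟩ := hP4 L Ω A hPL
  -- `A` is commutative
  have hcomm : ∀ a ∈ A, ∀ b ∈ A, a * b = b * a := by
    intro a ha b hb
    have h1 : (⟨a, ha⟩ * ⟨b, hb⟩ : A) = ⟨b, hb⟩ * ⟨a, ha⟩ := by
      let : CommGroup A := IsCyclic.commGroup
      exact mul_comm _ _
    exact congrArg (fun x : A => (x : L)) h1
  set K := oddPart A with hK
  set C := twoPart A with hC
  have hKA : K ≤ A := fun a ha => ((hmo a).1 ha).1
  have hCA : C ≤ A := fun a ha => ((hmt a).1 ha).1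
  have hτC : τ ∈ C := (hmt τ).2 ⟨hτA, 1, by rw [pow_one, pow_two]; exact hτ.1⟩
  have hτinv : τ⁻¹ = τ := inv_eq_of_mul_eq_one_left hτ.1
  have htτ : t * τ * t⁻¹ = τ := by
    rw [ht3 τ hτA ((hmt τ).1 hτC).2, hτinv]
  have htτ' : t * τ = τ * t := by
    have := htτ
    rw [mul_inv_eq_iff_eq_mul] at this
    exact this
  set H₀ : Subgroup L := Subgroup.centralizer ({τ} : Set L) with hH₀
  have hmemH : ∀ g : L, g ∈ H₀ ↔ g * τ = τ * g := by
    intro g
    rw [hH₀, Subgroup.mem_centralizer_singleton_iff]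
  have hAH : A ≤ H₀ := fun a ha => (hmemH a).2 (hcomm a ha τ hτA)
  have hCH : C ≤ H₀ := hCA.trans hAH
  have hKH : K ≤ H₀ := hKA.trans hAH
  have hcardH : Nat.card H₀ = ν * Nat.card Ω := by
    rw [← hν2 τ hτ]
    exact Nat.card_congr (Equiv.subtypeEquivRight hmemH)
  have hcardΩ : Nat.card Ω = 2 * (Nat.card K * Nat.card C) := by
    rw [hcard, hPL.cardA]
  have hKpos : 0 < Nat.card K := Nat.card_pos
  have hCpos : 0 < Nat.card C := Nat.card_pos
  -- apply DC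
  have hC'card : Nat.card (C.subgroupOf H₀) = Nat.card C :=
    Nat.card_congr (Subgroup.subgroupOfEquivOfLe hCH).toEquiv
  have e1 : IsCyclic (C.subgroupOf H₀) := (Subgroup.subgroupOfEquivOfLe hCH).isCyclic.2 hcycC
  have e2 : Nat.card (C.subgroupOf H₀) = 2 ^ n := by rw [hC'card, hn]
  have e3 : (⟨τ, hAH hτA⟩ : H₀) ∈ C.subgroupOf H₀ := by
    rw [Subgroup.mem_subgroupOf]; exact hτC
  have e4 : IsInv (⟨τ, hAH hτA⟩ : H₀) := by
    refine ⟨Subtype.ext hτ.1, fun h => hτ.2 ?_⟩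
    exact congrArg (fun x : H₀ => (x : L)) h
  have e5 : ∀ h : H₀, h * ⟨τ, hAH hτA⟩ = ⟨τ, hAH hτA⟩ * h := by
    intro h
    exact Subtype.ext ((hmemH h).1 h.2)
  have e6 : (⟨t, (hmemH t).2 htτ'⟩ : H₀) * ⟨t, (hmemH t).2 htτ'⟩ = 1 := Subtype.ext ht1
  have e7 : (⟨t, (hmemH t).2 htτ'⟩ : H₀) ∉ C.subgroupOf H₀ := by
    intro h
    rw [Subgroup.mem_subgroupOf] at h
    exact ht2 (hCA h)
  have e8 : ∀ c ∈ C.subgroupOf H₀, (⟨t, (hmemH t).2 htτ'⟩ : H₀) * c * (⟨t, (hmemH t).2 htτ'⟩)⁻¹ = c⁻¹ := by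
    intro c hc
    rw [Subgroup.mem_subgroupOf] at hc
    exact Subtype.ext (ht3 c (hCA hc) ((hmt c).1 hc).2)
  have e9 : Nat.card H₀ = 2 * Nat.card (C.subgroupOf H₀) * (Nat.card K * ν) := by
    rw [hcardH, hC'card, hcardΩ]; ring
  obtain ⟨U, hUn, hUodd, hUidx⟩ := hDC H₀ (C.subgroupOf H₀) ⟨t, (hmemH t).2 htτ'⟩ ⟨τ, hAH hτA⟩
    (Nat.card K * ν) n e1 e2 e3 e4 e5 e6 e7 e8 e9 (hoddK.mul hν)
  rw [hC'card] at hUidx
  have hUcard : Nat.card U = ν * Nat.card K := by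
    have h1 : Nat.card U * U.index = Nat.card H₀ := Subgroup.card_mul_index U
    rw [hUidx, hcardH, hcardΩ] at h1
    have h2 : 0 < 2 * Nat.card C := by positivity
    refine Nat.eq_of_mul_eq_mul_right h2 ?_
    rw [h1]; ring
  -- elements of odd order
  have hodd : ∀ g : H₀, ∀ m : ℕ, Odd m → g ^ m = 1 → g ∈ U := by
    intro g m hm hg
    have := hUn
    rw [← QuotientGroup.eq_one_iff]
    have h1 : orderOf (g : H₀ ⧸ U) ∣ m := by
      refine orderOf_dvd_of_pow_eq_one ?_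
      rw [← QuotientGroup.mk_pow, hg, QuotientGroup.mk_one]
    have h2 : orderOf (g : H₀ ⧸ U) ∣ 2 ^ (n + 1) := by
      have h3 : orderOf (g : H₀ ⧸ U) ∣ Nat.card (H₀ ⧸ U) := orderOf_dvd_natCard _
      have h4 : Nat.card (H₀ ⧸ U) = 2 ^ (n + 1) := by
        change U.index = _
        rw [hUidx, hn, pow_succ, mul_comm]
      rwa [h4] at h3
    have h3 : Nat.Coprime m (2 ^ (n + 1)) := (Nat.Coprime.pow_right _ (Nat.coprime_two_right.2 hm))
    exact orderOf_eq_one_iff.1 (Nat.eq_one_of_dvd_coprimes h3 h1 h2)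
  set V : Subgroup L := U.map H₀.subtype with hV
  have hmemV : ∀ g : L, g ∈ V ↔ ∃ h : g ∈ H₀, (⟨g, h⟩ : H₀) ∈ U := by
    intro g
    rw [hV, Subgroup.mem_map]
    constructor
    · rintro ⟨x, hx, rfl⟩
      exact ⟨x.2, hx⟩
    · rintro ⟨h, hg⟩
      exact ⟨⟨g, h⟩, hg, rfl⟩
  have hVcard : Nat.card V = ν * Nat.card K := by
    rw [← hUcard]
    exact (Nat.card_congr (U.equivMapOfInjective H₀.subtype Subtype.val_injective).toEquiv).symm
  have hVodd : Odd (Nat.card V) := by rw [hVcard]; exact hν.mul hoddK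
  have hVmem : ∀ g : L, g ∈ H₀ → ∀ m : ℕ, Odd m → g ^ m = 1 → g ∈ V := by
    intro g hg m hm hgm
    exact (hmemV g).2 ⟨hg, hodd ⟨g, hg⟩ m hm (Subtype.ext hgm)⟩
  have hVnorm : ∀ g : L, g ∈ H₀ → ∀ x ∈ V, g * x * g⁻¹ ∈ V := by
    intro g hg x hx
    obtain ⟨hxH, hxU⟩ := (hmemV x).1 hx
    exact (hmemV _).2 ⟨H₀.mul_mem (H₀.mul_mem hg hxH) (H₀.inv_mem hg),
      hUn.conj_mem ⟨x, hxH⟩ hxU ⟨g, hg⟩⟩
  have hKpow : ∀ a ∈ K, a ^ (Nat.card K) = 1 := by
    intro a ha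
    have h1 : (⟨a, ha⟩ : K) ^ (Nat.card K) = 1 := pow_card_eq_one'
    exact congrArg (fun x : K => (x : L)) h1
  have hKV : K ≤ V := fun a ha => hVmem a (hKH ha) _ hoddK (hKpow a ha)
  -- stabilisers
  have hΩ2 : 2 ∣ Nat.card Ω := ⟨_, hcardΩ⟩
  have hstabodd : ∀ ω : Ω, Odd (Nat.card (MulAction.stabilizer L ω)) := by
    intro ω
    have h1 := hPL.copr ω
    have h2 : Nat.Coprime (Nat.card (MulAction.stabilizer L ω)) 2 :=
      Nat.Coprime.coprime_dvd_right hΩ2 h1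
    exact Nat.coprime_two_right.1 h2
  have hVstab : ∀ ω : Ω, Nat.card {x : L // x ∈ V ∧ x • ω = ω} = ν := by
    intro ω
    rw [← hν1 τ ω hτ]
    refine Nat.card_congr (Equiv.subtypeEquivRight fun g => ?_)
    constructor
    · rintro ⟨h1, h2⟩
      exact ⟨h2, (hmemH g).1 ((hmemV g).1 h1).1⟩
    · rintro ⟨h1, h2⟩
      refine ⟨hVmem g ((hmemH g).2 h2) _ (hstabodd ω) ?_, h1⟩
      have h3 : (⟨g, h1⟩ : MulAction.stabilizer L ω) ^
          (Nat.card (MulAction.stabilizer L ω)) = 1 := pow_card_eq_one'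
      exact congrArg (fun x : MulAction.stabilizer L ω => (x : L)) h3
  have hcopV : Nat.Coprime ν (Nat.card K) := by
    obtain ⟨ω⟩ := hPL.nonempty
    have h1 : ν ∣ Nat.card (MulAction.stabilizer L ω) := by
      rw [← hVstab ω]
      have h2 : Nat.card {x : L // x ∈ V ∧ x • ω = ω} =
          Nat.card (V ⊓ MulAction.stabilizer L ω : Subgroup L) := by
        refine Nat.card_congr (Equiv.subtypeEquivRight fun g => ?_)
        rw [Subgroup.mem_inf, MulAction.mem_stabilizer_iff]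
      rw [h2]
      exact Subgroup.card_dvd_of_le inf_le_right
    have h2 : Nat.card K ∣ Nat.card Ω := by
      rw [hcardΩ]; exact ⟨2 * Nat.card C, by ring⟩
    exact Nat.Coprime.coprime_dvd_left h1 (Nat.Coprime.coprime_dvd_right h2 (hPL.copr ω))
  -- orbits
  have horb : ∀ ω : Ω, ∀ x ∈ V, ∃ a ∈ K, x • ω = a • ω := by
    intro ω
    have h1 : Nat.card (MulAction.orbit V ω) * Nat.card (MulAction.stabilizer V ω) = Nat.card V := by
      rw [← Nat.card_prod]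
      exact Nat.card_congr (MulAction.orbitProdStabilizerEquivGroup V ω)
    have h2 : Nat.card (MulAction.stabilizer V ω) = ν := by
      rw [← hVstab ω]
      refine Nat.card_congr ⟨fun x => ⟨x.1.1, x.1.2, x.2⟩, fun x => ⟨⟨x.1, x.2.1⟩, x.2.2⟩, fun x => rfl,
        fun x => rfl⟩
    have h3 : Nat.card (MulAction.orbit V ω) = Nat.card K := by
      rw [h2, hVcard] at h1
      have h4 : 0 < ν := hν.pos
      refine Nat.eq_of_mul_eq_mul_right h4 ?_
      rw [h1, mul_comm]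
    let f : K → MulAction.orbit V ω := fun a => ⟨(a : L) • ω, ⟨⟨a, hKV a.2⟩, rfl⟩⟩
    have hf : Function.Injective f := by
      intro a b hab
      have h4 : (a : L) • ω = (b : L) • ω := congrArg (fun x : MulAction.orbit V ω => (x : Ω)) hab
      have h5 : ((b : L)⁻¹ * (a : L)) • ω = ω := by
        rw [mul_smul, h4, inv_smul_smul]
      have h6 := hPL.semireg ((b : L)⁻¹ * (a : L))
        (A.mul_mem (A.inv_mem (hKA b.2)) (hKA a.2)) ω h5
      exact Subtype.ext (inv_mul_eq_one.1 h6).symm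
    have hfs : Function.Surjective f :=
      (Nat.bijective_iff_injective_and_card f).2 ⟨hf, h3.symm⟩ |>.2
    intro x hx
    obtain ⟨a, ha⟩ := hfs ⟨x • ω, ⟨⟨x, hx⟩, rfl⟩⟩
    refine ⟨a, a.2, ?_⟩
    exact (congrArg (fun x : MulAction.orbit V ω => (x : Ω)) ha).symm
  obtain ⟨hLO1, hLO2⟩ := hLO L Ω V K hKV hcycK hVodd horb
    (fun a ha ω h => hPL.semireg a (hKA ha) ω h) (fun ω => by rw [hVstab ω]; exact hcopV)
  have hNH' : ∀ h ∈ V, h ^ (Nat.card K) = 1 → h ∈ K := by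
    refine hNH L K V hKV hLO1 ?_
    rw [hVcard, Nat.mul_div_cancel _ hKpos]
    exact hcopV.symm
  refine ⟨?_, ?_, ?_⟩
  · intro g hg a ha
    refine hNH' _ (hVnorm g ((hmemH g).2 hg) a (hKV ha)) ?_
    rw [conj_pow, hKpow a ha, mul_one, mul_inv_cancel]
  · intro g hg hgo hga
    exact hLO2 g (hVmem g ((hmemH g).2 hg) _ hgo (pow_orderOf_eq_one g)) hga
  · intro g hg hgK
    exact hNH' g (hVmem g ((hmemH g).2 hg) _ hoddK hgK) hgK

end Pool.Agent.helper53.AU
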