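import Pool.Agent.helper87.AU.SpecQ2

/-!
Module QH2 of project au (MP_97532f_ag): Hilbert's formula for the different, totally ramified case.
-/

namespace Pool.Agent.helper53.AU

open scoped Classical IntermediateField
open IntermediateField (fixedField)

theorem QH2_coeff {k F : Type} [Field k] [Field F] [Algebra k F] (P : Place k F) {ι : Type}
    (S : Finset ι) (b : ι → F) (hb : ∀ i ∈ S, P.Ge 1 (b i)) :
    ∀ n : ℕ, (n < S.card → P.Ge 1 ((∏ i ∈ S, (Polynomial.X - Polynomial.C (b i))).coeff n)) ∧
      P.Ge 0 ((∏ i ∈ S, (Polynomial.X - Polynomial.C (b i))).coeff n) := by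
  induction S using Finset.induction_on with
  | empty =>
    intro n
    refine ⟨fun h => absurd h (by simp), ?_⟩
    rw [Finset.prod_empty, Polynomial.coeff_one]
    split_ifs
    · right; rw [P.ord_one]
    · left; rfl
  | insert a S ha ih =>
    have ih' := ih fun i hi => hb i (Finset.mem_insert_of_mem hi)
    have hba := hb a (Finset.mem_insert_self a S)
    intro n
    rw [Finset.prod_insert ha, sub_mul, Polynomial.coeff_sub, Polynomial.coeff_C_mul,
      Finset.card_insert_of_notMem ha]
    have h2 : P.Ge 1 (b a * (∏ i ∈ S, (Polynomial.X - Polynomial.C (b i))).coeff n) := by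
      simpa using hba.mul (ih' n).2
    cases n with
    | zero =>
      rw [Polynomial.coeff_X_mul_zero, zero_sub]
      exact ⟨fun _ => h2.neg, (h2.neg).mono (by norm_num)⟩
    | succ n =>
      rw [Polynomial.coeff_X_mul]
      refine ⟨fun h => ((ih' n).1 (by omega)).sub h2, ((ih' n).2).sub (h2.mono (by norm_num))⟩

theorem QH2 (hQK5 : QK5_stmt) (hQF1 : QF1_stmt) (hQE1 : QE1_stmt) (hQE5 : QE5_stmt) :
    QH2_stmt := by
  intro k F _ _ _ _ hF H hfin P Q e hB hfix D D₀ hD hD₀ hDD
  obtain ⟨hFE, -, -⟩ := hQE1 k F hF H hfin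
  have hecard : e = Nat.card H := by
    rw [hQE5 k F hF H hfin P Q e hB]
    unfold stabCard
    exact Nat.card_congr ⟨fun s => s.1, fun s => ⟨s, hfix s s.2⟩, fun s => rfl, fun s => rfl⟩
  obtain ⟨hepos, hord⟩ := hB
  let _ := Fintype.ofFinite H
  set t : F := P.unif with htdef
  have htU : P.Unif t := P.unif_spec
  have ht0 : t ≠ 0 := htU.1
  have ht1 : P.ord t = 1 := htU.2
  have hst : ∀ s : H, P.ord ((s : F ≃ₐ[k] F) t) = 1 := fun s => by
    rw [ord_apply_of_smul_eq (hfix s s.2), ht1]
  have hst0 : ∀ s : H, (s : F ≃ₐ[k] F) t ≠ 0 := fun s => by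
    intro h
    exact ht0 ((map_eq_zero (s : F ≃ₐ[k] F)).1 h)
  set f : Polynomial F := ∏ s : H, (Polynomial.X - Polynomial.C ((s : F ≃ₐ[k] F) t)) with hfdef
  have hdeg : f.natDegree = Fintype.card H := by
    rw [hfdef, Polynomial.natDegree_prod_of_monic _ _ fun s _ => Polynomial.monic_X_sub_C _]
    simp
  have hmonic : f.Monic := Polynomial.monic_prod_of_monic _ _ fun s _ => Polynomial.monic_X_sub_C _
  have hcard : Fintype.card H = e := by rw [hecard, Nat.card_eq_fintype_card]
  -- the coefficients are in the fixed field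
  have hcoef : ∀ n, f.coeff n ∈ fixedField H := by
    intro n
    rw [IntermediateField.mem_fixedField_iff]
    intro σ hσ
    have h1 : f.map ((σ : F ≃ₐ[k] F) : F →+* F) = f := by
      rw [hfdef, Polynomial.map_prod]
      refine Fintype.prod_equiv (Equiv.mulLeft (⟨σ, hσ⟩ : H)) _ _ fun s => ?_
      rw [Polynomial.map_sub, Polynomial.map_X, Polynomial.map_C]
      rfl
    have h2 := congrArg (fun p : Polynomial F => p.coeff n) h1
    simp only [Polynomial.coeff_map] at h2
    exact h2
  -- the value at `t`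
  have hroot : f.eval t = 0 := by
    rw [hfdef, Polynomial.eval_prod]
    refine Finset.prod_eq_zero (Finset.mem_univ (1 : H)) ?_
    simp
  -- the constant coefficient
  have hc0 : f.coeff 0 ≠ 0 ∧ P.ord (f.coeff 0) = e := by
    rw [Polynomial.coeff_zero_eq_eval_zero, hfdef, Polynomial.eval_prod]
    have key : ∀ S : Finset H, (∏ s ∈ S, Polynomial.eval 0
        (Polynomial.X - Polynomial.C ((s : F ≃ₐ[k] F) t))) ≠ 0 ∧
        P.ord (∏ s ∈ S, Polynomial.eval 0 (Polynomial.X - Polynomial.C ((s : F ≃ₐ[k] F) t))) =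
          S.card := by
      intro S
      induction S using Finset.induction_on with
      | empty => simp [P.ord_one]
      | insert a S ha ih =>
        rw [Finset.prod_insert ha]
        have e1 : Polynomial.eval 0 (Polynomial.X - Polynomial.C ((a : F ≃ₐ[k] F) t)) =
            -((a : F ≃ₐ[k] F) t) := by simp
        have e2 : -((a : F ≃ₐ[k] F) t) ≠ 0 := neg_ne_zero.2 (hst0 a)
        rw [e1]
        refine ⟨mul_ne_zero e2 ih.1, ?_⟩
        rw [P.ord_mul _ _ e2 ih.1, ih.2, P.ord_neg, hst a, Finset.card_insert_of_notMem ha]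
        push_cast
        ring
    obtain ⟨k1, k2⟩ := key Finset.univ
    refine ⟨k1, ?_⟩
    rw [k2, Finset.card_univ, hcard]
  set α : ℕ → fixedField H := fun n => ⟨f.coeff n, hcoef n⟩ with hα
  have hα0 : Q.Unif (α 0) := by
    have h1 : α 0 ≠ 0 := by
      intro h
      exact hc0.1 (congrArg (fun x : fixedField H => (x : F)) h)
    refine ⟨h1, ?_⟩
    have h2 := hord (α 0)
    have h3 : P.ord ((α 0 : fixedField H) : F) = e := hc0.2
    rw [h3] at h2
    have h4 : (e : ℤ) ≠ 0 := by exact_mod_cast hepos.ne'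
    have h5 : (e : ℤ) * 1 = e * Q.ord (α 0) := by rw [mul_one]; exact h2
    exact (mul_left_cancel₀ h4 h5).symm
  obtain ⟨hK1, hK2, hK3, -⟩ := hQK5 k (fixedField H) hFE D₀ hD₀ Q (α 0) hα0
  set δ : ℤ := Q.ord (D₀ Q.unif) with hδ
  rw [hK2] at hK3
  -- orders of the derivatives of the coefficients
  have hDc0 : D (f.coeff 0) ≠ 0 ∧ P.ord (D (f.coeff 0)) = e * δ := by
    have h1 : D (f.coeff 0) = ((D₀ (α 0) : fixedField H) : F) := (hDD (α 0)).symm
    rw [h1]
    refine ⟨fun h => hK1 (Subtype.ext h), ?_⟩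
    rw [hord, hK2]
  have hDc : ∀ n, 1 ≤ n → n ≤ e → P.Ge (e * δ) (D (f.coeff n)) := by
    intro n hn1 hne
    rcases hne.lt_or_eq with h | h
    · have h1 : D (f.coeff n) = ((D₀ (α n) : fixedField H) : F) := (hDD (α n)).symm
      have h2 : P.Ge 1 (f.coeff n) := by
        refine (QH2_coeff P Finset.univ (fun s : H => (s : F ≃ₐ[k] F) t)
          (fun s _ => Or.inr (hst s).ge) n).1 ?_
        rw [Finset.card_univ, hcard]
        exact h
      have h3 : Q.Ge 1 (α n) := by
        rcases h2 with h2 | h2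
        · left; exact Subtype.ext h2
        · right
          have h4 := hord (α n)
          have h5 : P.ord ((α n : fixedField H) : F) = P.ord (f.coeff n) := rfl
          rw [h5] at h4
          rw [h4] at h2
          by_contra hcon
          have h6 : Q.ord (α n) ≤ 0 := by omega
          have h7 : (0 : ℤ) < e := by exact_mod_cast hepos
          nlinarith
      have h4 := hK3 1 (α n) h3
      rw [sub_self, zero_add] at h4
      rw [h1]
      rcases h4 with h4 | h4
      · left
        rw [h4]
        rfl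
      · right
        rw [hord]
        exact mul_le_mul_of_nonneg_left h4 (Int.natCast_nonneg e)
    · have h1 : f.coeff n = 1 := by
        rw [h, ← hcard, ← hdeg]
        exact hmonic
      rw [h1, Derivation.map_one_eq_zero]
      exact P.ge_zero _
  -- apply the derivation
  have hder : (∑ n ∈ Finset.range (e + 1), D (f.coeff n) * t ^ n) +
      (Polynomial.derivative f).eval t * D t = 0 := by
    have h1 : D (f.eval t) = 0 := by rw [hroot, map_zero]
    have h2 : f.eval t = ∑ n ∈ Finset.range (e + 1), f.coeff n * t ^ n := by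
      rw [Polynomial.eval_eq_sum_range, hdeg, hcard]
    have h3 : (Polynomial.derivative f).eval t =
        ∑ n ∈ Finset.range (e + 1), f.coeff n * (n * t ^ (n - 1)) := by
      rw [Polynomial.derivative_eval, Polynomial.sum_over_range' _ _ (e + 1)]
      · refine Finset.sum_congr rfl fun n _ => by ring
      · rw [hdeg, hcard]; omega
      · intro n; simp
    rw [h2, map_sum] at h1
    rw [h3, Finset.sum_mul, ← Finset.sum_add_distrib, ← h1]
    refine Finset.sum_congr rfl fun n _ => ?_
    rw [Derivation.leibniz, Derivation.leibniz_pow]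
    simp only [smul_eq_mul, nsmul_eq_mul]
    ring
  have hsum : (∑ n ∈ Finset.range (e + 1), D (f.coeff n) * t ^ n) ≠ 0 ∧
      P.ord (∑ n ∈ Finset.range (e + 1), D (f.coeff n) * t ^ n) = e * δ := by
    rw [Finset.sum_range_succ', pow_zero, mul_one, add_comm]
    rw [← hDc0.2]
    refine Place.ord_add_eq hDc0.1 ?_
    rw [hDc0.2]
    refine Place.Ge.sum _ _ fun n hn => ?_
    rw [Finset.mem_range] at hn
    have h1 := (hDc (n + 1) (by omega) (by omega)).mul (Place.Ge.pow (Or.inr ht1.ge : P.Ge 1 t) (n + 1))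
    refine h1.mono ?_
    push_cast
    nlinarith [Int.natCast_nonneg n]
  -- the derivative at `t`
  have hf' : (Polynomial.derivative f).eval t =
      ∏ s ∈ Finset.univ.erase (1 : H), (t - (s : F ≃ₐ[k] F) t) := by
    have h1 : f = (Polynomial.X - Polynomial.C t) *
        ∏ s ∈ Finset.univ.erase (1 : H), (Polynomial.X - Polynomial.C ((s : F ≃ₐ[k] F) t)) := by
      rw [hfdef, ← Finset.mul_prod_erase Finset.univ _ (Finset.mem_univ (1 : H))]
      simp
    rw [h1, Polynomial.derivative_mul]
    simp [Polynomial.eval_prod]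
  have hprod : ∀ S : Finset H, (1 : H) ∉ S → (∏ s ∈ S, (t - (s : F ≃ₐ[k] F) t)) ≠ 0 ∧
      P.ord (∏ s ∈ S, (t - (s : F ≃ₐ[k] F) t)) = ∑ s ∈ S, ((P.jump s : ℤ) + 1) := by
    intro S
    induction S using Finset.induction_on with
    | empty => intro _; simp [P.ord_one]
    | insert a S ha ih =>
      intro h1
      rw [Finset.mem_insert, not_or] at h1
      obtain ⟨i1, i2⟩ := ih h1.2
      have ha1 : (a : F ≃ₐ[k] F) ≠ 1 := fun h => h1.1 (Subtype.ext h.symm)
      obtain ⟨j1, j2⟩ := (hQF1 k F hF P a (hfix a a.2) ha1).1 t htU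
      have e1 : t - (a : F ≃ₐ[k] F) t = -((a : F ≃ₐ[k] F) t - t) := by ring
      have e2 : t - (a : F ≃ₐ[k] F) t ≠ 0 := by rw [e1]; exact neg_ne_zero.2 j1
      rw [Finset.prod_insert ha, Finset.sum_insert ha]
      refine ⟨mul_ne_zero e2 i1, ?_⟩
      rw [P.ord_mul _ _ e2 i1, i2, e1, P.ord_neg, j2]
  obtain ⟨hp1, hp2⟩ := hprod (Finset.univ.erase 1) (Finset.notMem_erase _ _)
  rw [← hf'] at hp1 hp2
  have hDt : D t ≠ 0 := by
    intro h
    rw [h, mul_zero, add_zero] at hder
    exact hsum.1 hder
  have hfinal : P.ord ((Polynomial.derivative f).eval t * D t) = e * δ := by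
    have h1 : (Polynomial.derivative f).eval t * D t =
        -(∑ n ∈ Finset.range (e + 1), D (f.coeff n) * t ^ n) :=
      eq_neg_of_add_eq_zero_right hder
    rw [h1, P.ord_neg, hsum.2]
  rw [P.ord_mul _ _ hp1 hDt, hp2] at hfinal
  rw [finsum_eq_sum_of_fintype]
  have hlast : ∑ s : H, (if (s : F ≃ₐ[k] F) ≠ 1 then ((P.jump s : ℤ) + 1) else 0) =
      ∑ s ∈ Finset.univ.erase (1 : H), ((P.jump s : ℤ) + 1) := by
    rw [← Finset.sum_filter]
    refine Finset.sum_congr ?_ fun _ _ => rfl
    ext s
    simp only [Finset.mem_filter, Finset.mem_univ, true_and, Finset.mem_erase, and_true]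
    constructor
    · intro h h'; exact h (by rw [h']; rfl)
    · intro h h'; exact h (Subtype.ext h')
  rw [hlast]
  linarith

end Pool.Agent.helper53.AU
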