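import Pool.Agent.helper87.AU.SpecQ1

/-!
Module QN0 of project au (MP_97532f_ag).
-/

namespace Pool.Agent.helper53.AU

open scoped Classical IntermediateField
open Polynomial (aeval)

theorem QN0 (hQA2 : QA2_stmt) : QN0_stmt := by
  intro k F _ _ _ P₀ x n u μ hO h hh
  have hex : ∀ j : Fin n, ∃ φ : Fin n → Polynomial k, h * u j = ∑ i, aeval x (φ i) * u i :=
    fun j => hO.span (h * u j) ((Reg P₀).mul_mem hh (hO.reg j))
  choose φ hφ using hex
  refine ⟨fun i j => φ j i, fun j => hφ j, ?_⟩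
  intro A hA
  ext1 i j
  by_contra hne
  have h1 := (hQA2 k F P₀ x n u μ hO (fun i => A i j - φ j i) ⟨i, sub_ne_zero.2 hne⟩).1
  apply h1
  simp only [map_sub, sub_mul, Finset.sum_sub_distrib]
  rw [← hA j, ← hφ j, sub_self]

end Pool.Agent.helper53.AU
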