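import Pool.Agent.helper87.AU.SpecQ1

/-!
Module QV5 of project au (MP_97532f_ag).
-/

namespace Pool.Agent.helper53.AU

open scoped Classical IntermediateField
open Polynomial (aeval)

theorem QV5 (hQZ3 : QZ3_stmt) (hQV4 : QV4_stmt) : QV5_stmt := by
  intro k F _ _ _ _ hF f hf
  by_cases ht : Transcendental k f
  · obtain ⟨h1, h2⟩ := hQZ3 k F hF f ht
    have hfin := hQV4 k F hF f hf
    have e1 : (Function.support fun P : Place k F => max (P.ord f) 0).Finite := by
      refine hfin.subset fun P hP => ?_
      rw [Function.mem_support] at hP ⊢
      intro h0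
      apply hP
      rw [h0, max_self]
    have e2 : (Function.support fun P : Place k F => max (-P.ord f) 0).Finite := by
      refine hfin.subset fun P hP => ?_
      rw [Function.mem_support] at hP ⊢
      intro h0
      apply hP
      rw [h0, neg_zero, max_self]
    have e3 := finsum_sub_distrib e1 e2
    rw [h1, h2, sub_self] at e3
    rw [← e3]
    refine finsum_congr fun P => ?_
    rcases le_total (P.ord f) 0 with h | h
    · rw [max_eq_right h, max_eq_left (by omega)]
      ring
    · rw [max_eq_left h, max_eq_right (by omega)]
      ring
  · have halg : IsAlgebraic k f := by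
      unfold Transcendental at ht
      exact not_not.1 ht
    obtain ⟨c, hc⟩ : ∃ c : k, algebraMap k F c = f := by
      have hint : IsIntegral k f := halg.isIntegral
      refine ⟨-(minpoly k f).coeff 0, ?_⟩
      have hq : (minpoly k f).leadingCoeff = 1 := minpoly.monic hint
      have h : (minpoly k f).degree = 1 :=
        IsAlgClosed.degree_eq_one_of_irreducible k (minpoly.irreducible hint)
      have h' : aeval f (minpoly k f) = 0 := minpoly.aeval k f
      rw [Polynomial.eq_X_add_C_of_degree_eq_one h, hq, Polynomial.C_1, one_mul, map_add,
        Polynomial.aeval_X, Polynomial.aeval_C, add_eq_zero_iff_eq_neg] at h'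
      exact (map_neg (algebraMap k F) ((minpoly k f).coeff 0)).symm ▸ h'.symm
    have hc0 : c ≠ 0 := by
      rintro rfl
      exact hf (by rw [← hc, map_zero])
    rw [← hc]
    have : (fun P : Place k F => P.ord (algebraMap k F c)) = fun _ => 0 := by
      funext P
      exact P.ord_const c hc0
    rw [this, finsum_zero]

end Pool.Agent.helper53.AU
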