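import Pool.Agent.helper75.AU.SpecR

/-!
Module T7 of project au (MP_97532f_ag).
-/

namespace Pool.Agent.helper75.AU

open scoped Classical
open Pool.Agent.helper53.AU MulAction

/-- a faithful transitive group of order 56 on 8 points has no element of order 4 -/
theorem T7_abs (H Ω : Type) [Group H] [Finite H] [MulAction H Ω] [Finite Ω] [FaithfulSMul H Ω]
    (htr : IsPretransitive H Ω) (h8 : Nat.card Ω = 8) (h56 : Nat.card H = 56) (s : H)
    (hs : s ^ 4 = 1) : s ^ 2 = 1 := by
  by_contra hne
  have _ := Fintype.ofFinite Ω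
  have : Fact (Nat.Prime 7) := ⟨by norm_num⟩
  have hst : ∀ ω : Ω, Nat.card (stabilizer H ω) = 7 := by
    intro ω
    have h1 : Nat.card (orbit H ω) * Nat.card (stabilizer H ω) = Nat.card H := by
      rw [← Nat.card_prod]
      exact Nat.card_congr (orbitProdStabilizerEquivGroup H ω)
    have h2 : Nat.card (orbit H ω) = 8 := by
      rw [orbit_eq_univ, ← h8]
      exact Nat.card_congr (Equiv.Set.univ Ω)
    rw [h2, h56] at h1
    omega
  have hpow : ∀ (h : H) (ω : Ω), h • ω = ω → h ^ 7 = 1 := by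
    intro h ω hω
    have h1 : (⟨h, hω⟩ : stabilizer H ω) ^ (Nat.card (stabilizer H ω)) = 1 := pow_card_eq_one'
    rw [hst] at h1
    exact congrArg (fun x : stabilizer H ω => (x : H)) h1
  -- two points
  have htwo : ∀ (h : H) (ω β : Ω), ω ≠ β → h • ω = ω → h • β = β → h = 1 := by
    intro h ω β hne' h1 h2
    have hp : IsPGroup 7 (Subgroup.zpowers h) := by
      rw [IsPGroup.iff_card]
      have h3 : Nat.card (Subgroup.zpowers h) ∣ 7 := by
        rw [Nat.card_zpowers]
        exact orderOf_dvd_of_pow_eq_one (hpow h ω h1)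
      rcases (Nat.dvd_prime (by norm_num)).1 h3 with h4 | h4
      · exact ⟨0, by rw [h4, pow_zero]⟩
      · exact ⟨1, by rw [h4, pow_one]⟩
    have hmod := hp.card_modEq_card_fixedPoints Ω
    have hfix : ∀ γ : Ω, h • γ = γ → γ ∈ fixedPoints (Subgroup.zpowers h) Ω := by
      rintro γ hγ ⟨g, hg⟩
      obtain ⟨n, rfl⟩ := Subgroup.mem_zpowers_iff.1 hg
      change (h ^ n) • γ = γ
      have : h ∈ stabilizer H γ := hγ
      exact (stabilizer H γ).zpow_mem this n
    have hge : 2 ≤ Nat.card (fixedPoints (Subgroup.zpowers h) Ω) := by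
      have : Nontrivial (fixedPoints (Subgroup.zpowers h) Ω) :=
        ⟨⟨ω, hfix ω h1⟩, ⟨β, hfix β h2⟩, fun e => hne' (congrArg Subtype.val e)⟩
      exact Finite.one_lt_card
    have hle : Nat.card (fixedPoints (Subgroup.zpowers h) Ω) ≤ 8 := by
      rw [← h8]
      exact Nat.card_le_card_of_injective _ Subtype.val_injective
    rw [h8] at hmod
    have h9 : Nat.card (fixedPoints (Subgroup.zpowers h) Ω) = 8 := by
      unfold Nat.ModEq at hmod
      omega
    have hbij : Function.Bijective (Subtype.val : fixedPoints (Subgroup.zpowers h) Ω → Ω) :=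
      (Nat.bijective_iff_injective_and_card _).2 ⟨Subtype.val_injective, by rw [h9, h8]⟩
    refine FaithfulSMul.eq_of_smul_eq_smul (α := Ω) fun γ => ?_
    obtain ⟨⟨γ', hγ'⟩, rfl⟩ := hbij.2 γ
    rw [one_smul]
    exact hγ' ⟨h, Subgroup.mem_zpowers h⟩
  have hcne : ∀ ω : Ω, Nat.card {γ : Ω // γ ≠ ω} = 7 := by
    intro ω
    rw [Nat.card_eq_fintype_card, Fintype.card_subtype, Finset.filter_ne',
      Finset.card_erase_of_mem (Finset.mem_univ _), Finset.card_univ, ← Nat.card_eq_fintype_card, h8]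
  have htrans : ∀ ω β γ : Ω, β ≠ ω → γ ≠ ω → ∃ d : H, d • ω = ω ∧ d • β = γ := by
    intro ω β γ hβ hγ
    let f : stabilizer H ω → {γ : Ω // γ ≠ ω} := fun d => ⟨(d : H) • β, fun h => hβ (by
      have hd : (d : H) • ω = ω := d.2
      exact smul_left_cancel _ (h.trans hd.symm))⟩
    have hf : Function.Injective f := by
      intro a b hab
      have h4 : (a : H) • β = (b : H) • β := congrArg (fun x : {γ : Ω // γ ≠ ω} => (x : Ω)) hab
      have h5 : ((b : H)⁻¹ * (a : H)) • β = β := by
        rw [mul_smul, h4, inv_smul_smul]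
      have h6 : ((b : H)⁻¹ * (a : H)) • ω = ω :=
        (stabilizer H ω).mul_mem ((stabilizer H ω).inv_mem b.2) a.2
      exact Subtype.ext (inv_mul_eq_one.1 (htwo _ _ _ hβ.symm h6 h5)).symm
    have hfs : Function.Bijective f :=
      (Nat.bijective_iff_injective_and_card f).2 ⟨hf, by rw [hst, hcne]⟩
    obtain ⟨d, hd⟩ := hfs.2 ⟨γ, hγ⟩
    exact ⟨d, d.2, congrArg (fun x : {γ : Ω // γ ≠ ω} => (x : Ω)) hd⟩
  -- `s` and `s ^ 2` have no fixed points
  have hs2 : ∀ ω : Ω, s ^ 2 • ω ≠ ω := by
    intro ω h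
    have h1 := hpow _ ω h
    apply hne
    have h2 : (s ^ 2) ^ 7 = (s ^ 4) ^ 3 * s ^ 2 := by rw [← pow_mul, ← pow_mul, ← pow_add]
    rw [h2, hs, one_pow, one_mul] at h1
    exact h1
  have hs1 : ∀ ω : Ω, s • ω ≠ ω := by
    intro ω h
    apply hs2 ω
    rw [pow_two, mul_smul, h, h]
  have hne0 : Nonempty Ω := by
    have : 0 < Nat.card Ω := by rw [h8]; norm_num
    exact (Nat.card_pos_iff.1 this).1
  obtain ⟨y⟩ := hne0
  obtain ⟨d, hd1, hd2⟩ := htrans y (s ^ 2 • y) (s • y) (hs2 y) (hs1 y)
  set s' : H := d * s ^ 2 * d⁻¹ with hs'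
  have hs'y : s' • y = s • y := by
    have : d⁻¹ • y = y := by rw [inv_smul_eq_iff, hd1]
    rw [hs', mul_smul, mul_smul, this, hd2]
  have hs'f : ∀ ω : Ω, s' • ω ≠ ω := by
    intro ω h
    rw [hs', mul_smul, mul_smul, smul_eq_iff_eq_inv_smul] at h
    exact hs2 _ h
  have hss' : s ≠ s' := by
    intro h
    apply hne
    have h1 : s' ^ 2 = 1 := by
      rw [hs', conj_pow, ← pow_mul, show 2 * 2 = 4 from rfl, hs, mul_one, mul_inv_cancel]
    rw [h, h1]
  have hch : ∀ γ : {γ : Ω // γ ≠ y ∧ γ ≠ s • y}, ∃ h : H, h • (γ : Ω) = γ ∧ h • y = s • y := by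
    intro γ
    exact htrans γ y (s • y) γ.2.1.symm γ.2.2.symm
  choose e he1 he2 using hch
  let F : {γ : Ω // γ ≠ y ∧ γ ≠ s • y} ⊕ Bool → {h : H // h • y = s • y} := fun t =>
    match t with
    | Sum.inl γ => ⟨e γ, he2 γ⟩
    | Sum.inr true => ⟨s, rfl⟩
    | Sum.inr false => ⟨s', hs'y⟩
  have hF : Function.Injective F := by
    intro a b hab
    have hab' := congrArg (fun x : {h : H // h • y = s • y} => (x : H)) hab
    rcases a with γ | a <;> rcases b with γ' | b
    · by_contra hcon
      have hγ : (γ : Ω) ≠ γ' := fun h => hcon (by rw [Subtype.ext h])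
      have h1 : e γ = e γ' := hab'
      have h2 : e γ = 1 := htwo _ _ _ hγ (he1 γ) (by rw [h1]; exact he1 γ')
      have h3 := he2 γ
      rw [h2, one_smul] at h3
      exact hs1 y h3.symm
    · exfalso
      cases b
      · have h1 : e γ = s' := hab'
        have h2 := he1 γ
        rw [h1] at h2
        exact hs'f γ h2
      · have h1 : e γ = s := hab'
        have h2 := he1 γ
        rw [h1] at h2
        exact hs1 γ h2
    · exfalso
      cases a
      · have h1 : s' = e γ' := hab'
        have h2 := he1 γ'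
        rw [← h1] at h2
        exact hs'f γ' h2
      · have h1 : s = e γ' := hab'
        have h2 := he1 γ'
        rw [← h1] at h2
        exact hs1 γ' h2
    · cases a <;> cases b
      · rfl
      · exact absurd (show s' = s from hab') hss'.symm
      · exact absurd (show s = s' from hab') hss'
      · rfl
  have hcard := Nat.card_le_card_of_injective F hF
  have hS : Nat.card {h : H // h • y = s • y} = 7 := by
    rw [← hst y]
    refine Nat.card_congr ⟨fun h => ⟨s⁻¹ * h.1, ?_⟩, fun h => ⟨s * h.1, ?_⟩, ?_, ?_⟩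
    · rw [mem_stabilizer_iff, mul_smul, h.2, inv_smul_smul]
    · have := h.2
      rw [mem_stabilizer_iff] at this
      rw [mul_smul, this]
    · intro h; simp
    · intro h; simp
  have hT : Nat.card {γ : Ω // γ ≠ y ∧ γ ≠ s • y} = 6 := by
    have h1 : (Finset.univ.filter (fun γ : Ω => γ ≠ y ∧ γ ≠ s • y)) =
        (Finset.univ.erase y).erase (s • y) := by
      ext γ
      simp only [Finset.mem_filter, Finset.mem_univ, true_and, Finset.mem_erase, and_true]
      exact and_comm
    rw [Nat.card_eq_fintype_card, Fintype.card_subtype, h1, Finset.card_erase_of_mem,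
      Finset.card_erase_of_mem (Finset.mem_univ _), Finset.card_univ, ← Nat.card_eq_fintype_card, h8]
    rw [Finset.mem_erase]
    exact ⟨hs1 y, Finset.mem_univ _⟩
  rw [hS, Nat.card_sum, hT, Nat.card_eq_fintype_card, Fintype.card_bool] at hcard
  omega

theorem T7 (hF3b : F3b_stmt) : T7_stmt := by
  intro k G X _ _ _ _ _ _ l R y hS hG hy _
  have hl0 := hS.large
  have hm8 := hS.mod8
  have hm3 := hS.mod3
  have hm5 := hS.mod5
  obtain ⟨hQ, -⟩ := hF3b k G X l R (by omega)
  -- the element of order 4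
  obtain ⟨s, hs4, hs2⟩ : ∃ s : G, s ^ 4 = 1 ∧ s ^ 2 ≠ 1 := by
    have : Fact (Nat.Prime 2) := ⟨Nat.prime_two⟩
    obtain ⟨Q, hQc⟩ := Sylow.exists_subgroup_card_pow_prime (G := G) 2 (n := 3)
      (by rw [hG]; exact ⟨l + 4, by ring⟩)
    have hQp : IsPGroup 2 Q := IsPGroup.of_card hQc
    obtain ⟨A, hAQ, hAc, hcard, -⟩ := hQ Q hQp
    have h4 : 4 ≤ Nat.card A := by rw [hQc] at hcard; omega
    have hdvd : Nat.card A ∣ 8 := by
      have := Subgroup.card_dvd_of_le hAQ
      rwa [hQc] at this
    obtain ⟨a, ha⟩ := hAc.exists_generator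
    have hord : orderOf (a : G) = Nat.card A := by
      rw [Subgroup.orderOf_coe]
      exact orderOf_eq_card_of_forall_mem_zpowers ha
    have hle : Nat.card A ≤ 8 := Nat.le_of_dvd (by norm_num) hdvd
    have h48 : Nat.card A = 4 ∨ Nat.card A = 8 := by
      interval_cases (Nat.card A) <;> revert hdvd <;> decide
    rcases h48 with h | h
    · refine ⟨a, ?_, ?_⟩
      · rw [← h, ← hord]; exact pow_orderOf_eq_one _
      · intro h2
        have := orderOf_dvd_of_pow_eq_one h2
        rw [hord, h] at this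
        revert this; decide
    · refine ⟨(a : G) ^ 2, ?_, ?_⟩
      · rw [← pow_mul, show 2 * 4 = 8 from rfl, ← h, ← hord]; exact pow_orderOf_eq_one _
      · intro h2
        rw [← pow_mul] at h2
        have := orderOf_dvd_of_pow_eq_one h2
        rw [hord, h] at this
        revert this; decide
  -- the action on the orbit
  have horb : Nat.card (orbit G y) = 8 := by
    have h1 : Nat.card (orbit G y) * Nat.card (stabilizer G y) = Nat.card G := by
      rw [← Nat.card_prod]
      exact Nat.card_congr (orbitProdStabilizerEquivGroup G y)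
    rw [hy, hG] at h1
    exact Nat.eq_of_mul_eq_mul_right (by omega) h1
  set f : G →* Equiv.Perm (orbit G y) := MulAction.toPermHom G (orbit G y) with hf
  have hfa : ∀ (g : G) (ω : orbit G y), f g ω = g • ω := fun g ω => rfl
  have hkle : f.ker ≤ stabilizer G y := by
    intro g hg
    rw [MonoidHom.mem_ker] at hg
    have h1 : f g ⟨y, mem_orbit_self y⟩ = ⟨y, mem_orbit_self y⟩ := by rw [hg]; rfl
    exact congrArg (fun x : orbit G y => (x : X)) h1
  obtain ⟨m, hm⟩ : Nat.card f.ker ∣ l + 4 := by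
    rw [← hy]; exact Subgroup.card_dvd_of_le hkle
  have hkpos : 0 < Nat.card f.ker := Nat.card_pos
  have hrange : Nat.card f.range = 8 * m := by
    have h1 : Nat.card f.range * Nat.card f.ker = Nat.card G := by
      rw [← Subgroup.index_ker, mul_comm]; exact Subgroup.card_mul_index _
    rw [hG, hm] at h1
    refine Nat.eq_of_mul_eq_mul_right hkpos ?_
    rw [h1]; ring
  have hm7 : m ∣ 7 := by
    have h1 : Nat.card f.range ∣ Nat.card (Equiv.Perm (orbit G y)) :=
      Subgroup.card_subgroup_dvd_card _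
    rw [Nat.card_perm, horb, hrange] at h1
    have h2 : m ∣ 5040 := by
      have h3 : (8 : ℕ).factorial = 8 * 5040 := by decide
      rw [h3] at h1
      exact Nat.dvd_of_mul_dvd_mul_left (by norm_num) h1
    have h4 : m ∣ l + 4 := ⟨_, by rw [hm, mul_comm]⟩
    have h5 : Nat.Coprime (l + 4) 720 := by
      have e2 : Nat.Coprime (l + 4) 2 := by
        rw [Nat.coprime_two_right, Nat.odd_iff]; omega
      have e3 : Nat.Coprime (l + 4) 3 := by
        rw [Nat.coprime_comm, Nat.Prime.coprime_iff_not_dvd (by norm_num)]; omega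
      have e5 : Nat.Coprime (l + 4) 5 := by
        rw [Nat.coprime_comm, Nat.Prime.coprime_iff_not_dvd (by norm_num)]; omega
      have : (720 : ℕ) = 2 ^ 4 * 3 ^ 2 * 5 := by norm_num
      rw [this]
      exact Nat.Coprime.mul_right (Nat.Coprime.mul_right (e2.pow_right 4) (e3.pow_right 2)) e5
    have h6 : Nat.Coprime m 720 := Nat.Coprime.coprime_dvd_left h4 h5
    have h7 : m ∣ 720 * 7 := by norm_num; exact h2
    exact h6.dvd_of_dvd_mul_left h7
  rcases (Nat.dvd_prime (by norm_num)).1 hm7 with h1 | h7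
  · -- the stabiliser is normal
    rw [h1, mul_one] at hm
    obtain ⟨K, hKd⟩ : ∃ K : Subgroup G, K = f.ker := ⟨_, rfl⟩
    rw [← hKd] at hm hkpos
    obtain ⟨γ, hγ⟩ := R.RH K
    have hlow : ((Nat.card K : ℤ) - 1) * 8 ≤
        ∑ x : X, ∑ s ∈ Finset.univ.filter (fun s : G => s ∈ K ∧ s ≠ 1 ∧ s • x = x),
        ((R.i x s : ℤ) + 1) := by
      have e1 : ∑ x ∈ Finset.univ.filter (fun x : X => x ∈ orbit G y), ((Nat.card K : ℤ) - 1) ≤
          ∑ x ∈ Finset.univ.filter (fun x : X => x ∈ orbit G y),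
          ∑ s ∈ Finset.univ.filter (fun s : G => s ∈ K ∧ s ≠ 1 ∧ s • x = x),
          ((R.i x s : ℤ) + 1) := by
        refine Finset.sum_le_sum fun x hx => ?_
        rw [Finset.mem_filter] at hx
        have e2 : (Finset.univ.filter (fun s : G => s ∈ K ∧ s ≠ 1 ∧ s • x = x)) =
            (Finset.univ.filter (fun s : G => s ∈ K)).erase 1 := by
          ext s
          simp only [Finset.mem_filter, Finset.mem_univ, true_and, Finset.mem_erase]
          constructor
          · rintro ⟨a1, a2, a3⟩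
            exact ⟨a2, a1⟩
          · rintro ⟨a1, a2⟩
            refine ⟨a2, a1, ?_⟩
            rw [hKd, MonoidHom.mem_ker] at a2
            have a3 : f s ⟨x, hx.2⟩ = ⟨x, hx.2⟩ := by rw [a2]; rfl
            exact congrArg (fun x : orbit G y => (x : X)) a3
        rw [e2]
        have e3 : (((Finset.univ.filter (fun s : G => s ∈ K)).erase 1).card : ℤ) =
            (Nat.card K : ℤ) - 1 := by
          rw [Finset.card_erase_of_mem (by simp [K.one_mem])]
          have e4 : (Finset.univ.filter (fun s : G => s ∈ K)).card = Nat.card K := by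
            rw [Nat.card_eq_fintype_card, Fintype.card_subtype]
          rw [e4]
          push_cast [hkpos]
          rfl
        rw [← e3, Finset.card_eq_sum_ones]
        push_cast
        refine Finset.sum_le_sum fun s _ => ?_
        have : (0 : ℤ) ≤ (R.i x s : ℤ) := Int.natCast_nonneg _
        linarith
      rw [Finset.sum_const] at e1
      have e5 : (Finset.univ.filter (fun x : X => x ∈ orbit G y)).card = 8 := by
        rw [← horb, Nat.card_eq_fintype_card, Fintype.card_subtype]
      rw [e5] at e1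
      have e6 : ∑ x ∈ Finset.univ.filter (fun x : X => x ∈ orbit G y),
          ∑ s ∈ Finset.univ.filter (fun s : G => s ∈ K ∧ s ≠ 1 ∧ s • x = x),
          ((R.i x s : ℤ) + 1) ≤
          ∑ x : X, ∑ s ∈ Finset.univ.filter (fun s : G => s ∈ K ∧ s ≠ 1 ∧ s • x = x),
          ((R.i x s : ℤ) + 1) := by
        refine Finset.sum_le_sum_of_subset_of_nonneg (Finset.filter_subset _ _) fun x _ _ => ?_
        refine Finset.sum_nonneg fun s _ => ?_
        positivity
      rw [nsmul_eq_mul] at e1
      push_cast at e1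
      linarith
    have hk' : (Nat.card K : ℤ) = l + 4 := by exact_mod_cast hm.symm
    rw [hk'] at hγ hlow
    have hγ0 : (0 : ℤ) ≤ γ := Int.natCast_nonneg _
    have hl' : (1000 : ℤ) < l := by exact_mod_cast hl0
    have h9 : (0 : ℤ) ≤ ((l : ℤ) + 4) * (2 * (γ : ℤ)) := by positivity
    push_cast at hγ
    nlinarith
  · -- order 56
    rw [h7] at hrange
    have htr : IsPretransitive f.range (orbit G y) := by
      refine ⟨fun a b => ?_⟩
      obtain ⟨g, hg⟩ := MulAction.exists_smul_eq G a b
      exact ⟨⟨f g, ⟨g, rfl⟩⟩, hg⟩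
    have h10 := T7_abs f.range (orbit G y) htr horb hrange ⟨f s, ⟨s, rfl⟩⟩ (by
      refine Subtype.ext ?_
      change (f s) ^ 4 = 1
      rw [← map_pow, hs4, map_one])
    have h11 : (f s) ^ 2 = 1 := congrArg (fun x : f.range => (x : Equiv.Perm (orbit G y))) h10
    rw [← map_pow] at h11
    have h12 : s ^ 2 ∈ stabilizer G y := hkle (by rw [MonoidHom.mem_ker]; exact h11)
    have h13 : (⟨s ^ 2, h12⟩ : stabilizer G y) ^ (Nat.card (stabilizer G y)) = 1 := pow_card_eq_one'
    rw [hy] at h13
    have h14 : (s ^ 2) ^ (l + 4) = 1 := congrArg (fun x : stabilizer G y => (x : G)) h13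
    apply hs2
    obtain ⟨j, hj⟩ : ∃ j, l + 4 = 2 * j + 1 := ⟨(l + 3) / 2, by omega⟩
    rw [hj, ← pow_mul] at h14
    have h15 : s ^ (2 * (2 * j + 1)) = (s ^ 4) ^ j * s ^ 2 := by
      rw [← pow_mul, ← pow_add]; ring_nf
    rw [h15, hs4, one_pow, one_mul] at h14
    exact h14

end Pool.Agent.helper75.AU
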